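import Pool.Agent.V8H36.LD.Asm
import Pool.Agent.Y745.EW.Asm

set_option autoImplicit false

/-! The statement of the project EW of helper745 (the zeros near exceptional values), without hypotheses. -/

namespace Pool.Agent.V8H36.LD

open Filter Topology MeasureTheory Complex H370 Pool.Agent.Y745.SW Pool.Agent.Y745.LD Pool.Agent.Y745.EW

open Classical in
theorem b_ew : ∀ ε : ℝ, 0 < ε → ε ≤ 1 / 2 → ∃ δ : ℝ, 0 < δ ∧ δ ≤ 1 / 10 ∧
    ∀ κ : ℝ, ∃ e : ℝ, 0 < e ∧ ∀ᶠ T : ℝ in atTop, ∃ U1 U2 r : ℝ, ∃ E : Set ℝ,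
    T ≤ U1 ∧ U1 ≤ T + 1 ∧ 2 * T - 1 ≤ U2 ∧ U2 ≤ 2 * T ∧
    Real.log T ^ (e - 1) ≤ r ∧ r ≤ Real.log T ^ (ε - 1) ∧ MeasurableSet E ∧
    E ⊆ Set.Icc (T + 6 * Real.log T) (2 * T - 6 * Real.log T) ∧
    T * Real.log T ^ (-κ ^ 2 - ε) ≤ volume.real E ∧ ∀ t ∈ E,
      |Real.log ‖riemannZeta (1 / 2 + t * I)‖ - κ * LL T| ≤ ε * LL T ∧
      (2 - cMTinv - ε) * (r * Real.log T / Real.pi) ≤
        ((((isoS U1 U2 (δ / Real.log T)).filter (fun s =>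
          |Real.log ‖deriv riemannZeta s‖ - (1 + κ) * LL T| ≤ ε * LL T)).filter
            (fun s => |s.im - t| ≤ r)).card : ℝ) ∧
      nz U1 U2 (t - r) (t + r) ≤
        ((((isoS U1 U2 (δ / Real.log T)).filter (fun s =>
          |Real.log ‖deriv riemannZeta s‖ - (1 + κ) * LL T| ≤ ε * LL T)).filter
            (fun s => |s.im - t| ≤ r)).card : ℝ) +
        (1 - (2 - cMTinv - ε)) * (r * Real.log T / Real.pi) :=
  ew_core a_VBX b_DERV a_LOW t_G1M a_G2M a_VM1 a_VMT a_PW Pool.Agent.Y288.EW.t_SEPC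

end Pool.Agent.V8H36.LD
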