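import Pool.Agent.V8H36.LD.Asm0
import Pool.Agent.V8H36.UP.OUT

set_option autoImplicit false

/-! The statements of the projects LD and UP of helper745 (exceptional sizes of the derivative at the zeros), without
hypotheses. -/

namespace Pool.Agent.V8H36.LD

open Filter Topology MeasureTheory Complex H370 Pool.Agent.Y745.SW Pool.Agent.Y745.LD Pool.Agent.V8H36.UP

theorem b_DERV : P_DERV := a_DERV t_OUT

theorem b_upb {κ ε : ℝ} (hκ0 : 0 ≤ κ) (hκ2 : κ ≤ 2) (hε : 0 < ε) :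
    ∀ᶠ T : ℝ in atTop,
    (((Zf riemannZeta T (2 * T)).filter (fun s => s.re = 1 / 2 ∧
      Real.log s.im ^ (1 + κ) ≤ ‖deriv riemannZeta s‖)).card : ℝ) ≤ T * Real.log T ^ (1 - κ ^ 2 + ε) :=
  a_upb t_OUT hκ0 hκ2 hε

open Classical in
theorem b_ld : ∃ δ : ℝ, 0 < δ ∧ δ ≤ 1 / 10 ∧ ∀ κ ε : ℝ, 0 < ε →
    ∀ᶠ T : ℝ in atTop,
    ∃ U1 U2 : ℝ, T ≤ U1 ∧ U1 ≤ T + 1 ∧ 2 * T - 1 ≤ U2 ∧ U2 ≤ 2 * T ∧
    T * Real.log T ^ (1 - κ ^ 2 - ε) ≤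
      (((isoS U1 U2 (δ / Real.log T)).filter (fun s => T + 2 ≤ s.im ∧ s.im ≤ 2 * T - 2 ∧
        |Real.log ‖deriv riemannZeta s‖ - (1 + κ) * LL T| ≤ ε * LL T)).card : ℝ) :=
  a_ld t_OUT

end Pool.Agent.V8H36.LD
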