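import Pool.Agent.Y745.LD.DefsB
import Pool.Agent.Q97.UM.Base2

set_option autoImplicit false

/-! Almost all heights have all zeros near the critical line (statement `P_G1M` of the LD project of helper745), from the
universal density theorem (`Pool.Agent.Q97.UM.b_TAIL`) and the windows (`Pool.Agent.Q210.UM.t_WND`). -/

namespace Pool.Agent.V8H36.LD

open Filter Topology MeasureTheory Complex Pool.Agent.Q97.UM

noncomputable section

lemma dp_one (t : ℝ) : dp 1 (fun _ => 1) t = 1 := by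
  simp [dp]

lemma N2_one : N2 1 (fun _ => 1) = 1 := by
  simp [N2]

lemma int_one (S : Set ℝ) : ∫ t in S, ‖dp 1 (fun _ => 1) t‖ ^ 2 = volume.real S := by
  simp only [dp_one, norm_one, one_pow, setIntegral_const, smul_eq_mul, mul_one]

/-- the bad heights -/
def Bd (r α : ℝ) : Set ℝ := {t : ℝ | ∃ ρ ∈ Zw t r, α < |ρ.re - 1 / 2|}

lemma Bd_meas (r α : ℝ) : MeasurableSet (Bd r α) := by
  have h : Bd r α = ⋃ n : ℕ, {t : ℝ | ∃ ρ ∈ Zw t r, α + 1 / ((n : ℝ) + 1) ≤ |ρ.re - 1 / 2|} := by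
    ext t
    simp only [Bd, Set.mem_setOf_eq, Set.mem_iUnion]
    constructor
    · rintro ⟨ρ, h1, h2⟩
      obtain ⟨n, hn⟩ := exists_nat_one_div_lt (show 0 < |ρ.re - 1 / 2| - α by linarith)
      exact ⟨n, ρ, h1, by linarith⟩
    · rintro ⟨n, ρ, h1, h2⟩
      have : 0 < 1 / ((n : ℝ) + 1) := by positivity
      exact ⟨ρ, h1, by linarith⟩
  rw [h]
  exact MeasurableSet.iUnion fun n => Pool.Agent.Q178.UM.ZF2.t_ZF2.2.2 _ _

lemma G1_compl (r D T : ℝ) : (Pool.Agent.Y745.LD.G1 r D T)ᶜ =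
    Bd (r * Real.log T) (D * Pool.Agent.Y745.LD.LL T / Real.log T) := by
  ext t
  simp only [Pool.Agent.Y745.LD.G1, Bd, Zw, Set.mem_compl_iff, Set.mem_setOf_eq]
  push Not
  constructor
  · rintro ⟨s, h1, h2, h3, h4, h5⟩
    exact ⟨s, ⟨h1, h2, h3, h4⟩, h5⟩
  · rintro ⟨s, ⟨h1, h2, h3, h4⟩, h5⟩
    exact ⟨s, h1, h2, h3, h4, h5⟩

theorem t_G1M : Pool.Agent.Y745.LD.P_G1M := by
  intro r A' hr hA'
  obtain ⟨θ, c, C, hθ, hθ1, hc, hC, hT⟩ := b_TAIL
  obtain ⟨C2, hC2, hW⟩ := Pool.Agent.Q210.UM.t_WND θ c C hθ hθ1 hc hC hT Pool.Agent.Q84.UM.t_MVL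
    Pool.Agent.Q84.UM.t_DPM Pool.Agent.Q178.UM.ZF2.t_ZF2
  refine ⟨2 * (A' + 3) / c, by positivity, fun D hD => ?_⟩
  have hlog := Real.tendsto_log_atTop
  have hsmall : ∀ᶠ T : ℝ in atTop, r * Real.log T ^ 2 ≤ T := by
    have h1 := (isLittleO_log_rpow_atTop (show (0:ℝ) < 1 / 4 by norm_num)).bound (show (0:ℝ) < 1 by norm_num)
    have h2 : ∀ᶠ T : ℝ in atTop, r ≤ T ^ ((1:ℝ) / 2) :=
      (tendsto_rpow_atTop (by norm_num : (0:ℝ) < 1 / 2)).eventually_ge_atTop r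
    filter_upwards [h1, h2, eventually_ge_atTop 1] with T h1 h2 h3
    have hL0 : 0 ≤ Real.log T := Real.log_nonneg h3
    rw [one_mul, Real.norm_eq_abs, Real.norm_eq_abs, abs_of_nonneg hL0,
      abs_of_nonneg (Real.rpow_nonneg (by linarith) _)] at h1
    have h4 : Real.log T ^ 2 ≤ T ^ ((1:ℝ) / 2) := by
      calc Real.log T ^ 2 ≤ (T ^ ((1:ℝ) / 4)) ^ 2 := by gcongr
        _ = T ^ ((1:ℝ) / 2) := by
          rw [← Real.rpow_natCast, ← Real.rpow_mul (by linarith)]; norm_num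
    calc r * Real.log T ^ 2 ≤ T ^ ((1:ℝ) / 2) * T ^ ((1:ℝ) / 2) := by
          refine mul_le_mul h2 h4 (by positivity) (Real.rpow_nonneg (by linarith) _)
      _ = T := by rw [← Real.rpow_add (by linarith)]; norm_num
  filter_upwards [hW, hsmall, hlog.eventually_ge_atTop (1 + 1 / r + C2 * r), eventually_ge_atTop 1] with T hT1 hs hL hT0
  set L := Real.log T with hLd
  have hr1 : 0 < 1 / r := by positivity
  have hCr : 0 ≤ C2 * r := by positivity
  have hL1 : 1 ≤ L := by linarith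
  have hL0 : 0 < L := by linarith
  have hLL0 : 0 ≤ Pool.Agent.Y745.LD.LL T := by
    unfold Pool.Agent.Y745.LD.LL
    exact Real.log_nonneg (by rw [← hLd]; exact hL1)
  have hmeas := Bd_meas (r * L) (D * Pool.Agent.Y745.LD.LL T / L)
  have hG : MeasurableSet (Pool.Agent.Y745.LD.G1 r D T) := by
    have := hmeas.compl
    rw [hLd, ← G1_compl, compl_compl] at this
    exact this
  refine ⟨hG, ?_⟩
  have hR1 : 1 ≤ r * L ^ 2 := by
    have h1 : 1 / r ≤ L := by linarith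
    have h2 : 1 ≤ r * L := by
      rw [div_le_iff₀ hr] at h1
      linarith
    calc (1:ℝ) ≤ (r * L) * 1 := by linarith
      _ ≤ (r * L) * L := by gcongr
      _ = r * L ^ 2 := by ring
  have hD0 : 0 ≤ D := le_trans (by positivity) hD
  have key := (hT1 (r * L ^ 2) hR1 hs 1 (by
    rw [Nat.cast_one]
    exact Real.one_le_rpow hT0 (by positivity)) (fun _ => 1)).1 (D * Pool.Agent.Y745.LD.LL T) (by positivity)
  rw [int_one, N2_one, mul_one, show r * L ^ 2 / L = r * L by field_simp] at key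
  have hsub : Set.Icc T (2 * T) \ Pool.Agent.Y745.LD.G1 r D T ⊆
      {t : ℝ | T ≤ t ∧ t ≤ 2 * T ∧ ∃ ρ ∈ Zw t (r * L), D * Pool.Agent.Y745.LD.LL T / L ≤ |ρ.re - 1 / 2|} := by
    rintro t ⟨h1, h2⟩
    have h3 : t ∈ (Pool.Agent.Y745.LD.G1 r D T)ᶜ := h2
    rw [G1_compl] at h3
    obtain ⟨ρ, h4, h5⟩ := h3
    exact ⟨h1.1, h1.2, ρ, h4, h5.le⟩
  have hfin : volume {t : ℝ | T ≤ t ∧ t ≤ 2 * T ∧ ∃ ρ ∈ Zw t (r * L), D * Pool.Agent.Y745.LD.LL T / L ≤ |ρ.re - 1 / 2|} ≠ ⊤ := by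
    refine ne_top_of_le_ne_top (b := volume (Set.Icc T (2 * T))) (by simp) (measure_mono ?_)
    rintro t ⟨h1, h2, -⟩
    exact ⟨h1, h2⟩
  refine (measureReal_mono hsub hfin).trans (key.trans ?_)
  -- the final estimate
  have he : Real.exp (-(c / 2 * (D * Pool.Agent.Y745.LD.LL T))) ≤ L ^ (-(A' + 3)) := by
    rw [Real.rpow_def_of_pos hL0, Real.exp_le_exp]
    have h1 : A' + 3 ≤ c / 2 * D := by
      rw [div_le_iff₀ hc] at hD
      linarith
    have h2 : (A' + 3) * Pool.Agent.Y745.LD.LL T ≤ c / 2 * D * Pool.Agent.Y745.LD.LL T :=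
      mul_le_mul_of_nonneg_right h1 hLL0
    have h3 : Real.log L = Pool.Agent.Y745.LD.LL T := rfl
    rw [h3]
    linarith
  have hTpos : 0 ≤ T := by linarith
  calc C2 * (r * L ^ 2) * Real.exp (-(c / 2 * (D * Pool.Agent.Y745.LD.LL T))) * T
      ≤ C2 * (r * L ^ 2) * L ^ (-(A' + 3)) * T := by gcongr
    _ = (C2 * r) * L ^ (-(A' + 1)) * T := by
      have : L ^ 2 * L ^ (-(A' + 3)) = L ^ (-(A' + 1)) := by
        rw [← Real.rpow_natCast, ← Real.rpow_add hL0]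
        congr 1; push_cast; ring
      rw [← this]; ring
    _ ≤ L * L ^ (-(A' + 1)) * T := by
      have : C2 * r ≤ L := by linarith
      gcongr
    _ = T / L ^ A' := by
      have : L * L ^ (-(A' + 1)) = L ^ (-A') := by
        nth_rewrite 1 [← Real.rpow_one L]
        rw [← Real.rpow_add hL0]
        congr 1; ring
      rw [this, Real.rpow_neg hL0.le]
      field_simp

end

end Pool.Agent.V8H36.LD
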