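import Pool.Agent.Y745.LD.DefsB
import Pool.Agent.Y419.UP.UPB

set_option autoImplicit false

/-! The crude upper bound for zeta near the critical line (statement `P_ZUP` of the LD project of helper745), from the
second moment in the strip (`P_STRIP`). -/

namespace Pool.Agent.V8H36.LD

open Filter Topology MeasureTheory Complex H370 Pool.Agent.Y745.UP Pool.Agent.Y419.UP

noncomputable section

/-- the double integral -/
def Wd (R t : ℝ) : ℝ := ∫ u in (-(2 * R))..(2 * R), Hn 2 R t u

lemma Wd_cont (R : ℝ) : Continuous (Wd R) := by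
  unfold Wd
  refine intervalIntegral.continuous_parametric_intervalIntegral_of_continuous' (f := fun t u => Hn 2 R t u) ?_ _ _
  unfold Hn
  refine intervalIntegral.continuous_parametric_intervalIntegral_of_continuous'
    (f := fun (p : ℝ × ℝ) (v : ℝ) => gz 2 p.2 (p.1 + v)) ?_ _ _
  exact (cont_gz (by norm_num)).comp (by fun_prop : Continuous fun q : (ℝ × ℝ) × ℝ => (q.1.2, q.1.1 + q.2))

lemma Wd_nonneg {R : ℝ} (hR : 0 ≤ R) (t : ℝ) : 0 ≤ Wd R t :=
  intervalIntegral.integral_nonneg (by linarith) fun u _ => Hn_nonneg hR u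

lemma swap3 {F : ℝ → ℝ → ℝ} (hF : Continuous F.uncurry) (a b c d : ℝ) :
    ∫ x in a..b, ∫ y in c..d, F x y = ∫ y in c..d, ∫ x in a..b, F x y := by
  apply intervalIntegral_intervalIntegral_swap
  apply IntegrableOn.mono_set (t := Set.uIcc a b ×ˢ Set.uIcc c d)
  · exact hF.continuousOn.integrableOn_compact (isCompact_uIcc.prod isCompact_uIcc)
  · exact Set.prod_mono Set.uIoc_subset_uIcc Set.uIoc_subset_uIcc

/-- integral of a function bounded by a constant -/
lemma int_le_const {f : ℝ → ℝ} (hf : Continuous f) {a b K : ℝ} (hab : a ≤ b) (h : ∀ x ∈ Set.Icc a b, f x ≤ K) :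
    ∫ x in a..b, f x ≤ (b - a) * K := by
  have hc : IntervalIntegrable (fun _ : ℝ => K) volume a b := continuous_const.intervalIntegrable a b
  have h1 : ∫ x in a..b, f x ≤ ∫ _x in a..b, K :=
    intervalIntegral.integral_mono_on hab (hf.intervalIntegrable a b) hc h
  rw [intervalIntegral.integral_const, smul_eq_mul] at h1
  exact h1

/-- bound for a double integral -/
lemma dbl {G : ℝ → ℝ → ℝ} (hG : Continuous (fun p : ℝ × ℝ => G p.1 p.2)) {a b c d K : ℝ} (hcd : c ≤ d)
    (h : ∀ u ∈ Set.Icc c d, ∫ t in a..b, G t u ≤ K) :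
    ∫ t in a..b, ∫ u in c..d, G t u ≤ (d - c) * K := by
  have hG' : Continuous G.uncurry := hG
  rw [swap3 hG']
  refine int_le_const ?_ hcd h
  have h1 : Continuous (Function.uncurry fun u t => G t u) := hG.comp continuous_swap
  exact intervalIntegral.continuous_parametric_intervalIntegral_of_continuous' h1 _ _

lemma cont_q : Continuous (fun q : (ℝ × ℝ) × ℝ => gz 2 q.1.2 (q.1.1 + q.2)) :=
  (cont_gz (by norm_num)).comp (by fun_prop : Continuous fun q : (ℝ × ℝ) × ℝ => (q.1.2, q.1.1 + q.2))

lemma cont_H (R : ℝ) : Continuous (fun p : ℝ × ℝ => Hn 2 R p.1 p.2) := by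
  unfold Hn
  exact intervalIntegral.continuous_parametric_intervalIntegral_of_continuous'
    (f := fun (p : ℝ × ℝ) (v : ℝ) => gz 2 p.2 (p.1 + v)) cont_q _ _

lemma cont_uv (u : ℝ) : Continuous (fun p : ℝ × ℝ => gz 2 u (p.1 + p.2)) :=
  (cont_gz (by norm_num)).comp (by fun_prop : Continuous fun p : ℝ × ℝ => (u, p.1 + p.2))

/-- the mean of the inner integral -/
lemma Hn_mean {T R B u : ℝ} (hT : 4 ≤ T) (hR0 : 0 < R) (hR1 : 2 * R ≤ 1)
    (h : ∫ t in (T / 2)..(3 * T), ‖riemannZeta (((1 / 2 + u : ℝ) : ℂ) + t * I)‖ ^ (2:ℝ) ≤ B) :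
    ∫ t in T..(2 * T), Hn 2 R t u ≤ (2 * R - -(2 * R)) * B := by
  unfold Hn
  refine dbl (cont_uv u) (by linarith) fun v hv => ?_
  rw [intervalIntegral.integral_comp_add_right (fun t => gz 2 u t) v]
  refine (mono_int (cont_gz1 (by norm_num) u) (fun t => gz_nonneg _ _ _) (c := T / 2) (d := 3 * T)
    (by linarith [hv.1]) (by linarith) (by linarith [hv.2])).trans ?_
  have e1 : ∫ t in (T / 2)..(3 * T), gz 2 u t =
      ∫ t in (T / 2)..(3 * T), ‖riemannZeta (((1 / 2 + u : ℝ) : ℂ) + t * I)‖ ^ (2:ℝ) := by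
    refine intervalIntegral.integral_congr fun t ht => ?_
    rw [Set.uIcc_of_le (by linarith)] at ht
    exact gz_eq 2 u (by linarith [ht.1])
  rw [e1]
  exact h

/-- the mean of the double integral -/
lemma Wd_mean {T R B : ℝ} (hT : 4 ≤ T) (hR0 : 0 < R) (hR1 : 2 * R ≤ 1)
    (h : ∀ x : ℝ, |x| ≤ 2 * R → ∫ t in (T / 2)..(3 * T), ‖riemannZeta (((1 / 2 + x : ℝ) : ℂ) + t * I)‖ ^ (2:ℝ) ≤ B) :
    ∫ t in T..(2 * T), Wd R t ≤ (4 * R) * ((4 * R) * B) := by
  have h2 : ∫ t in T..(2 * T), Wd R t ≤ (2 * R - -(2 * R)) * ((2 * R - -(2 * R)) * B) := by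
    unfold Wd
    exact dbl (G := fun t u => Hn 2 R t u) (cont_H R) (by linarith)
      fun u hu => Hn_mean hT hR0 hR1 (h u (abs_le.2 hu))
  refine h2.trans (le_of_eq ?_)
  ring

theorem t_ZUP (hSUBA : P_SUBA) (hSTRIP : P_STRIP) : Pool.Agent.Y745.LD.P_ZUP := by
  intro A' hA'
  obtain ⟨C, hC, hS⟩ := hSTRIP 1 2 one_pos (by norm_num) (by norm_num)
  refine ⟨A' + 1, by linarith, ?_⟩
  filter_upwards [hS, Real.tendsto_log_atTop.eventually_ge_atTop (16 * C), eventually_ge_atTop 100] with T hT hL hT1
  have hT0 : 0 < T := by linarith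
  set L := Real.log T with hLd
  have hL1 : 16 ≤ L := by linarith
  have hL0 : 0 < L := by linarith
  have hpi := Real.pi_pos
  set R : ℝ := 1 / L with hR
  have hR0 : 0 < R := by positivity
  have hR1 : 2 * R ≤ 1 := by
    rw [hR]
    have : 1 / L ≤ 1 / 16 := one_div_le_one_div_of_le (by norm_num) hL1
    linarith
  have hmean := Wd_mean (T := T) (R := R) (B := C * (T * L)) (by linarith) hR0 hR1 (by
    intro x hx
    have h1 := hT x (by rw [hR] at hx; rwa [show (2:ℝ) / L = 2 * (1 / L) by ring])
    norm_num at h1 ⊢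
    exact h1)
  set M : ℝ := Real.pi * L ^ (2 * A') with hM
  have hM0 : 0 < M := by positivity
  set E : Set ℝ := Set.Icc T (2 * T) ∩ {t : ℝ | M < Wd R t} with hE
  have hEm : MeasurableSet E := measurableSet_Icc.inter
    (measurableSet_lt measurable_const (Wd_cont R).measurable)
  have hEfin : volume E ≠ ⊤ := ne_top_of_le_ne_top (b := volume (Set.Icc T (2 * T))) (by simp)
    (measure_mono Set.inter_subset_left)
  refine ⟨E, hEm, Set.inter_subset_left, ?_, ?_⟩
  · have h1 : M * volume.real E ≤ ∫ t in T..(2 * T), Wd R t := by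
      have hi : IntegrableOn (Wd R) (Set.Icc T (2 * T)) := (Wd_cont R).continuousOn.integrableOn_compact isCompact_Icc
      rw [intervalIntegral.integral_of_le (by linarith), ← integral_Icc_eq_integral_Ioc]
      calc M * volume.real E = ∫ _t in E, M := by rw [setIntegral_const, smul_eq_mul]; ring
        _ ≤ ∫ t in E, Wd R t := by
            refine setIntegral_mono_on (integrableOn_const hEfin) (hi.mono_set Set.inter_subset_left) hEm ?_
            intro t ht
            exact le_of_lt ht.2
        _ ≤ ∫ t in Set.Icc T (2 * T), Wd R t := by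
            refine setIntegral_mono_set hi (Eventually.of_forall fun t => Wd_nonneg hR0.le t) ?_
            exact Eventually.of_forall fun t ht => ht.1
    have h2 : M * volume.real E ≤ 16 * C * T / L := by
      refine (h1.trans hmean).trans (le_of_eq ?_)
      rw [hR]; field_simp; ring
    have h3 : volume.real E * (M * L) ≤ T * L := by
      have : M * volume.real E * L ≤ 16 * C * T := by
        rw [le_div_iff₀ hL0] at h2; linarith
      calc volume.real E * (M * L) = M * volume.real E * L := by ring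
        _ ≤ 16 * C * T := this
        _ ≤ L * T := mul_le_mul_of_nonneg_right hL hT0.le
        _ = T * L := by ring
    have h4 : volume.real E * M ≤ T := by
      have : volume.real E * M * L ≤ T * L := by linarith
      exact le_of_mul_le_mul_right this hL0
    have h5 : L ^ A' ≤ M := by
      rw [hM]
      have a1 : L ^ A' ≤ L ^ (2 * A') := Real.rpow_le_rpow_of_exponent_le (by linarith) (by linarith)
      have a2 : 0 < L ^ (2 * A') := by positivity
      have a3 : 1 ≤ Real.pi := by linarith [Real.pi_gt_three]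
      nlinarith
    rw [le_div_iff₀ (by positivity)]
    calc volume.real E * L ^ A' ≤ volume.real E * M := mul_le_mul_of_nonneg_left h5 measureReal_nonneg
      _ ≤ T := h4
  · intro t ht htE z hz
    have h1 : Wd R t ≤ M := by
      by_contra hcon
      push Not at hcon
      exact htE ⟨⟨by linarith [ht.1], by linarith [ht.2]⟩, hcon⟩
    have h2 := sphere_le hSUBA (β := 2) (R := R) (γ := t) (by norm_num) hR0 (by linarith [ht.1]) (z := z) (by
      refine le_trans (le_of_eq ?_) hz
      congr 2
      push_cast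
      ring)
    have h3 : ‖riemannZeta z‖ ^ (2:ℝ) ≤ 1 / (Real.pi * R ^ 2) * M := by
      refine h2.trans ?_
      exact mul_le_mul_of_nonneg_left h1 (by positivity)
    have h4 : 1 / (Real.pi * R ^ 2) * M = (L ^ (A' + 1)) ^ (2:ℝ) := by
      rw [hM, hR, ← Real.rpow_mul hL0.le]
      have e1 : L ^ ((A' + 1) * 2) = L ^ (2 * A') * L ^ 2 := by
        rw [← Real.rpow_natCast, ← Real.rpow_add hL0]
        congr 1; push_cast; ring
      rw [e1]
      field_simp
    rw [h4] at h3
    exact (Real.rpow_le_rpow_iff (norm_nonneg _) (by positivity) (by norm_num)).1 h3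

end

end Pool.Agent.V8H36.LD
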