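import Pool.Agent.V8H36.LD_All
import Pool.Agent.V8H36.LD.ZUP
import Pool.Agent.V8H36.LD.G1M
import Pool.Agent.V8H36.SW.Asm
import Pool.Agent.V8H36.UP.NZM
import Pool.Agent.Y745.UP.Fin
import Pool.Agent.Y732.UP.SUBA
import Pool.Agent.Y568.UP.STRIP
import Pool.Agent.Y419.UP.UPB

set_option autoImplicit false

/-! Assembly of the projects LD, EW and UP of helper745 (exceptional sizes of the derivative at the zeros), given the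
moments off the line (`P_OUT`). -/

namespace Pool.Agent.V8H36.LD

open Filter Topology MeasureTheory Complex H370 Pool.Agent.Y745.SW Pool.Agent.Y745.LD

theorem a_MVB : P_MVB := Pool.Agent.Y840.SW.t_MVB
theorem a_VM1 : P_VM1 := Pool.Agent.Y931.LD.t_VM1 a_MVB
theorem a_VMR : P_VMR := Pool.Agent.Y447.LD.t_VMR a_MVB
theorem a_VMS : P_VMS := Pool.Agent.Y665.LD.t_VMS a_MVB a_VM1
theorem a_VMT : P_VMT := Pool.Agent.Y665.LD.t_VMT a_MVB a_VM1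
theorem a_VSM : P_VSM := Pool.Agent.Y732.LD.t_VSM a_VMR a_VMS Pool.Agent.Y210.LD.t_EFU
theorem a_CNT2 : P_CNT2 := Pool.Agent.Y745.LD.t_CNT2 a_VSM
theorem a_VDQ : P_VDQ := Pool.Agent.Y811.LD.t_VDQ a_VMR
theorem a_G2M : P_G2M := Pool.Agent.Y949.LD.t_G2M a_MVB
theorem a_PW : P_PW := Pool.Agent.Y363.LD.t_PW
theorem a_ZL2 : P_ZL2 := Pool.Agent.Y363.LD.t_ZL2 a_MVB a_VM1 a_VMR a_VMS Pool.Agent.Y179.LD.t_Z1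
theorem a_LOW : P_LOW := Pool.Agent.Y448.LD.t_LOW a_VM1 a_VMT a_PW a_G2M t_G1M a_ZL2 Pool.Agent.Y674.LD.t_Z3

theorem a_VBLK : P_VBLK := Pool.Agent.Y745.LD.vblk Pool.Agent.Y833.SW.t_DI Pool.Agent.Y655.SW.t_TRK
  Pool.Agent.Y627.SW.t_MN good_zeta Pool.Agent.Y786.LD.t_KER2 Pool.Agent.Y290.LD.t_DFU a_VDQ Pool.Agent.Y210.LD.t_EFU
  a_VSM a_CNT2 Pool.Agent.Y871.LD.t_COST

theorem a_VBX : Pool.Agent.Y745.EW.P_VBX := Pool.Agent.Y745.EW.vblk2 Pool.Agent.Y833.SW.t_DI Pool.Agent.Y655.SW.t_TRK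
  Pool.Agent.Y627.SW.t_MN good_zeta Pool.Agent.Y786.LD.t_KER2 Pool.Agent.Y290.LD.t_DFU a_VDQ Pool.Agent.Y210.LD.t_EFU
  a_VSM a_CNT2 Pool.Agent.Y871.LD.t_COST

theorem a_SUBA : Pool.Agent.Y745.UP.P_SUBA := Pool.Agent.Y732.UP.t_SUBA

theorem a_STRIP (hOUT : Pool.Agent.Y745.UP.P_OUT) : Pool.Agent.Y745.UP.P_STRIP :=
  Pool.Agent.Y568.UP.t_STRIP a_SUBA hOUT

theorem a_ZUP (hOUT : Pool.Agent.Y745.UP.P_OUT) : P_ZUP := t_ZUP a_SUBA (a_STRIP hOUT)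

theorem a_DERV (hOUT : Pool.Agent.Y745.UP.P_OUT) : P_DERV :=
  Pool.Agent.Y954.LD.t_DERV a_VM1 a_VMT a_PW a_LOW (a_ZUP hOUT) Pool.Agent.Y655.SW.t_HAR

theorem a_UPB (hOUT : Pool.Agent.Y745.UP.P_OUT) : Pool.Agent.Y745.UP.P_UPB :=
  Pool.Agent.Y419.UP.t_UPB a_SUBA (a_STRIP hOUT) Pool.Agent.V8H36.UP.t_NZM

theorem a_upb (hOUT : Pool.Agent.Y745.UP.P_OUT) {κ ε : ℝ} (hκ0 : 0 ≤ κ) (hκ2 : κ ≤ 2) (hε : 0 < ε) :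
    ∀ᶠ T : ℝ in atTop,
    (((Zf riemannZeta T (2 * T)).filter (fun s => s.re = 1 / 2 ∧
      Real.log s.im ^ (1 + κ) ≤ ‖deriv riemannZeta s‖)).card : ℝ) ≤ T * Real.log T ^ (1 - κ ^ 2 + ε) :=
  Pool.Agent.Y745.UP.upb_count (a_UPB hOUT) hκ0 hκ2 hε

open Classical in
theorem a_ld (hOUT : Pool.Agent.Y745.UP.P_OUT) : ∃ δ : ℝ, 0 < δ ∧ δ ≤ 1 / 10 ∧ ∀ κ ε : ℝ, 0 < ε →
    ∀ᶠ T : ℝ in atTop,
    ∃ U1 U2 : ℝ, T ≤ U1 ∧ U1 ≤ T + 1 ∧ 2 * T - 1 ≤ U2 ∧ U2 ≤ 2 * T ∧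
    T * Real.log T ^ (1 - κ ^ 2 - ε) ≤
      (((isoS U1 U2 (δ / Real.log T)).filter (fun s => T + 2 ≤ s.im ∧ s.im ≤ 2 * T - 2 ∧
        |Real.log ‖deriv riemannZeta s‖ - (1 + κ) * LL T| ≤ ε * LL T)).card : ℝ) :=
  ld_count a_VBLK (a_DERV hOUT) t_G1M a_G2M a_VM1 a_VMT a_PW

end Pool.Agent.V8H36.LD
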